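import Pool.Agent.Y916.HStm

/-!
# Hyperelliptic integrals at integers: the collapse lemma `S_col`
-/

set_option autoImplicit false

open PowerSeries

namespace Pool.Agent.Y678.HV

open Pool.Agent.Y113 Pool.Agent.Y916.Hy

theorem t_col : S_col := by
  classical
  intro N q q'
  refine ⟨2 * q' + 2 * q + N + 6, ?_⟩
  intro ι κ _ _ C T φ y w f P hι hκ hy hw hφ hφc hP hPc hyw
  set E := 2 * q' + 2 * q + N + 6 with hE
  have hC := hy.one_le
  have hC0 : 0 < C := zero_lt_one.trans_le hC
  have h2C : 1 ≤ 2 * C := by linarith
  have hCC : C ≤ (2 * C) ^ E := by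
    calc C ≤ 2 * C := by linarith
      _ = (2 * C) ^ 1 := (pow_one _).symm
      _ ≤ _ := pow_le_pow_right₀ h2C (by omega)
  have hBT : Bd q C T := ⟨hy.degT, hy.sizeT⟩
  have hBφ : Bd q' C φ := ⟨hφ, hφc⟩
  have hC2 : ∀ m : ℕ, C ^ (m + 1) ≤ ((2 * C) ^ E) ^ (m + 1) := fun m =>
    pow_le_pow_left₀ hC0.le hCC _
  refine ⟨one_le_pow₀ h2C, (hBT.mul hBφ).1, fun l => ((hBT.mul hBφ).2 l).trans ?_,
    fun i m => ?_, ?_, ?_⟩
  · calc ((q : ℝ) + 1) * (C * C) ≤ 2 ^ q * (C * C) := mul_le_mul_of_nonneg_right (succ_le_two_pow q) (by positivity)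
      _ ≤ (2 * C) ^ q * (2 * C) ^ 2 := by
          refine mul_le_mul (pow_le_pow_left₀ (by norm_num) (by linarith) _) (by nlinarith) (by positivity) (by positivity)
      _ = (2 * C) ^ (q + 2) := by rw [pow_add]
      _ ≤ _ := pow_le_pow_right₀ h2C (by omega)
  · rw [hw i]
    exact (hy.size (f i) m).trans (hC2 m)
  · intro m
    obtain ⟨d, hd0, hd, hd'⟩ := hy.den m
    exact ⟨d, hd0, hd.trans (hC2 m), fun j l hl => by rw [hw j]; exact hd' (f j) l hl⟩
  · intro k
    obtain ⟨g, hg0, hg, hg'⟩ := hy.der k
    refine ⟨g, hg0, hg.trans (hC2 k), fun s hs => ?_⟩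
    rcases s with _ | s
    · refine ⟨fun i j => if i = j then Polynomial.C (g : ℤ) else 0, fun i j => ?_, fun i j l => ?_, fun i => ?_⟩
      · dsimp only
        split_ifs <;> simp
      · dsimp only
        split_ifs
        · rw [Polynomial.coeff_C]
          split_ifs
          · push_cast
            rw [abs_of_nonneg (Nat.cast_nonneg _)]
            exact hg.trans (hC2 k)
          · simp; positivity
        · simp; positivity
      · rw [Finset.sum_eq_single i]
        · dsimp only
          rw [if_pos rfl, ps_C, pow_zero, one_mul, hd_zero]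
          simp
        · intro j _ hj
          dsimp only
          rw [if_neg (Ne.symm hj), ps_zero, zero_mul]
        · intro h
          exact absurd (Finset.mem_univ _) h
    · obtain ⟨G, h1, h2, h3⟩ := hg' (s + 1) hs
      have hB : ∀ j j', Bd (q' * s + (q * (s + 1) + q')) ((q' * s + 1) * (((q' + 1) * C) ^ s *
          (Fintype.card ι * ((q * (s + 1) + 1) * (C ^ (k + 1) * C)))))
          (φ ^ s * ∑ i, G (f j) i * P i j') := by
        intro j j'
        have e1 : Bd (q * (s + 1) + q') (Fintype.card ι * ((q * (s + 1) + 1) * (C ^ (k + 1) * C)))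
            (∑ i, G (f j) i * P i j') := by
          rw [← Finset.card_univ]
          refine Bd.sum _ fun i _ => ?_
          have e2 : Bd (q * (s + 1)) (C ^ (k + 1)) (G (f j) i) := ⟨h1 _ _, h2 _ _⟩
          have e3 : Bd q' C (P i j') := ⟨hP _ _, hPc _ _⟩
          have := e2.mul e3
          push_cast at this
          exact this
        have := (hBφ.pow s).mul e1
        push_cast at this
        exact this
      refine ⟨fun j j' => φ ^ s * ∑ i, G (f j) i * P i j', fun j j' => (hB j j').1.trans (le_of_eq (by ring)),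
        fun j j' l => ((hB j j').2 l).trans ?_, fun j => ?_⟩
      · have hsk : (s : ℝ) ≤ k := by
          have : s ≤ k := by omega
          exact_mod_cast this
        have e4 : (q' : ℝ) * s + 1 ≤ (2 ^ q') ^ (k + 1) := by
          have := succ_le_two_pow (q' * s)
          push_cast at this
          refine this.trans ?_
          rw [← pow_mul]
          exact pow_le_pow_right₀ (by norm_num) (Nat.mul_le_mul_left _ (by omega))
        have e5 : (((q' : ℝ) + 1) * C) ^ s ≤ (2 ^ q' * C) ^ (k + 1) := by
          refine (pow_le_pow_left₀ (by positivity) (mul_le_mul_of_nonneg_right (succ_le_two_pow q') hC0.le) _).trans ?_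
          refine pow_le_pow_right₀ ?_ (by omega)
          have : (1 : ℝ) ≤ 2 ^ q' := one_le_pow₀ (by norm_num)
          nlinarith
        have e6 : (q : ℝ) * (s + 1) + 1 ≤ (2 ^ q) ^ (k + 1) := by
          have := succ_le_two_pow (q * (s + 1))
          push_cast at this
          refine this.trans ?_
          rw [← pow_mul]
          exact pow_le_pow_right₀ (by norm_num) (Nat.mul_le_mul_left _ (by omega))
        have e7 : (Fintype.card ι : ℝ) ≤ (2 ^ N) ^ (k + 1) := by
          have h1 : (Fintype.card ι : ℝ) ≤ N := by exact_mod_cast hι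
          have h2 := succ_le_two_pow N
          have h3 : (2 : ℝ) ^ N ≤ (2 ^ N) ^ (k + 1) := le_self_pow₀ (one_le_pow₀ (by norm_num)) (by omega)
          linarith
        have e8 : C ^ (k + 1) * C ≤ (C ^ 2) ^ (k + 1) := by
          have : C ≤ C ^ (k + 1) := le_self_pow₀ hC (by omega)
          calc C ^ (k + 1) * C ≤ C ^ (k + 1) * C ^ (k + 1) := mul_le_mul_of_nonneg_left this (by positivity)
            _ = (C ^ 2) ^ (k + 1) := by rw [← mul_pow]; ring_nf
        calc ((q' : ℝ) * s + 1) * (((q' + 1) * C) ^ s * (Fintype.card ι * ((q * (s + 1) + 1) * (C ^ (k + 1) * C))))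
            ≤ (2 ^ q') ^ (k + 1) * ((2 ^ q' * C) ^ (k + 1) * ((2 ^ N) ^ (k + 1) * ((2 ^ q) ^ (k + 1) * (C ^ 2) ^ (k + 1)))) := by
              refine mul_le_mul e4 ?_ (by positivity) (by positivity)
              refine mul_le_mul e5 ?_ (by positivity) (by positivity)
              refine mul_le_mul e7 ?_ (by positivity) (by positivity)
              exact mul_le_mul e6 e8 (by positivity) (by positivity)
          _ = (2 ^ (2 * q' + N + q) * C ^ 3) ^ (k + 1) := by
              rw [← mul_pow, ← mul_pow, ← mul_pow, ← mul_pow]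
              congr 1
              rw [show 2 * q' + N + q = q' + q' + N + q by ring, pow_add, pow_add, pow_add]
              ring
          _ ≤ _ := by
              refine pow_le_pow_left₀ (by positivity) ?_ _
              rw [mul_pow]
              exact mul_le_mul (pow_le_pow_right₀ (by norm_num) (by omega)) (pow_le_pow_right₀ hC (by omega))
                (by positivity) (by positivity)
      · have e1 : (g : ℚ⟦X⟧) * (ps (T * φ) ^ (s + 1) * hd (s + 1) (w j)) =
            ps φ ^ s * (ps φ * ((g : ℚ⟦X⟧) * (ps T ^ (s + 1) * hd (s + 1) (y (f j))))) := by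
          rw [ps_mul, mul_pow, hw j]
          ring
        rw [e1, h3 (f j), Finset.mul_sum]
        have e2 : ∀ i ∈ Finset.univ, ps φ * (ps (G (f j) i) * y i) =
            ∑ j', ps (G (f j) i) * (ps (P i j') * w j') := by
          intro i _
          have : ps φ * (ps (G (f j) i) * y i) = ps (G (f j) i) * (ps φ * y i) := by ring
          rw [this, hyw i, Finset.mul_sum]
        rw [Finset.sum_congr rfl e2, Finset.sum_comm, Finset.mul_sum]
        refine Finset.sum_congr rfl fun j' _ => ?_
        rw [ps_mul, ps_pow, ps_sum, mul_assoc, Finset.sum_mul]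
        congr 1
        refine Finset.sum_congr rfl fun i _ => ?_
        rw [ps_mul]
        ring

end Pool.Agent.Y678.HV
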