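import Pool.Agent.Y678.HV.Col
import Pool.Agent.Y120.G.Word

/-!
# Hyperelliptic integrals at integers: the G-system with one shift
-/

set_option autoImplicit false

open PowerSeries

namespace Pool.Agent.Y678.HV

open Pool.Agent.Y113 Pool.Agent.Y916.Hy Pool.Agent.Y120.GF

/-! ### the polynomial `phi F g` -/

lemma phi_coeff_zero (F : Polynomial ℤ) (g : ℕ) : (phi F g).coeff 0 = F.leadingCoeff := by
  unfold phi
  rw [Polynomial.coeff_zero_reverse, Polynomial.leadingCoeff_comp (by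
    rw [Polynomial.natDegree_X_add_C]; exact one_ne_zero), Polynomial.leadingCoeff_X_add_C,
    one_pow, mul_one]

lemma natDegree_comp' (F : Polynomial ℤ) (g : ℕ) :
    (F.comp (Polynomial.X + Polynomial.C (g : ℤ))).natDegree = F.natDegree := by
  rw [Polynomial.natDegree_comp, Polynomial.natDegree_X_add_C, mul_one]

lemma phi_natDegree (F : Polynomial ℤ) (g : ℕ) : (phi F g).natDegree ≤ F.natDegree := by
  unfold phi
  exact (Polynomial.reverse_natDegree_le _).trans (natDegree_comp' F g).le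

/-- a real number is at most a power of two -/
lemma exists_two_pow (x : ℝ) : ∃ c : ℕ, x ≤ 2 ^ c := by
  obtain ⟨n, hn⟩ := exists_nat_ge x
  refine ⟨n, hn.trans ?_⟩
  have := succ_le_two_pow n
  linarith

lemma phi_bd (F : Polynomial ℤ) : ∃ E : ℕ, ∀ g l : ℕ, |(((phi F g).coeff l : ℤ) : ℝ)| ≤ ((g : ℝ) + 2) ^ E := by
  set n := F.natDegree with hn
  obtain ⟨c, hc⟩ := exists_two_pow (∑ i ∈ Finset.range (n + 1), |((F.coeff i : ℤ) : ℝ)|)
  refine ⟨c + 2 * n, fun g l => ?_⟩
  have hx : (2 : ℝ) ≤ (g : ℝ) + 2 := by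
    have : (0 : ℝ) ≤ g := Nat.cast_nonneg _
    linarith
  have key : ∀ l, |(((F.comp (Polynomial.X + Polynomial.C (g : ℤ))).coeff l : ℤ) : ℝ)| ≤
      ((g : ℝ) + 2) ^ (c + 2 * n) := by
    intro l
    rw [Polynomial.comp, Polynomial.eval₂_eq_sum_range, Polynomial.finsetSum_coeff]
    push_cast
    refine (Finset.abs_sum_le_sum_abs _ _).trans ?_
    have h1 : ∀ i ∈ Finset.range (n + 1), |(((Polynomial.C (F.coeff i) *
        (Polynomial.X + Polynomial.C (g : ℤ)) ^ i).coeff l : ℤ) : ℝ)| ≤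
        |((F.coeff i : ℤ) : ℝ)| * ((g : ℝ) + 2) ^ (2 * n) := by
      intro i hi
      rw [Finset.mem_range] at hi
      rw [Polynomial.coeff_C_mul, Polynomial.coeff_X_add_C_pow]
      push_cast
      rw [abs_mul]
      refine mul_le_mul_of_nonneg_left ?_ (abs_nonneg _)
      rw [abs_of_nonneg (by positivity)]
      have h2 : (g : ℝ) ^ (i - l) ≤ ((g : ℝ) + 2) ^ n := by
        calc (g : ℝ) ^ (i - l) ≤ ((g : ℝ) + 2) ^ (i - l) :=
              pow_le_pow_left₀ (Nat.cast_nonneg _) (by linarith) _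
          _ ≤ _ := pow_le_pow_right₀ (by linarith) (by omega)
      have h3 : (i.choose l : ℝ) ≤ ((g : ℝ) + 2) ^ n := by
        have h4 : i.choose l ≤ 2 ^ i := Nat.choose_le_two_pow i l
        have h5 : (i.choose l : ℝ) ≤ 2 ^ i := by exact_mod_cast h4
        refine h5.trans ?_
        calc (2 : ℝ) ^ i ≤ 2 ^ n := pow_le_pow_right₀ (by norm_num) (by omega)
          _ ≤ _ := pow_le_pow_left₀ (by norm_num) hx _
      calc (g : ℝ) ^ (i - l) * (i.choose l : ℝ) ≤ ((g : ℝ) + 2) ^ n * ((g : ℝ) + 2) ^ n :=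
            mul_le_mul h2 h3 (Nat.cast_nonneg _) (by positivity)
        _ = _ := by rw [← pow_add]; ring_nf
    refine (Finset.sum_le_sum h1).trans ?_
    rw [← Finset.sum_mul, pow_add]
    refine mul_le_mul_of_nonneg_right ?_ (by positivity)
    exact hc.trans (pow_le_pow_left₀ (by norm_num) hx _)
  unfold phi
  rw [Polynomial.coeff_reverse]
  exact key _

/-! ### The base family -/

/-- the indices of the functions -/
abbrev Tau (F : Polynomial ℤ) : Type := Fin (F.natDegree - 1) ⊕ Unit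

/-- the functions with shift `g` -/
noncomputable def zf (F : Polynomial ℤ) (g : ℕ) (o : Option (Tau F)) : ℚ⟦X⟧ := o.elim (Rt (phi F g)) (Yf F g)

/-- the denominator -/
noncomputable def Tg (F : Polynomial ℤ) (g : ℕ) : Polynomial ℤ :=
  Polynomial.X * phi F g * (1 + Polynomial.C (g : ℤ) * Polynomial.X)

lemma two_le_g (g : ℕ) : (2 : ℝ) ≤ (g : ℝ) + 2 := by
  have : (0 : ℝ) ≤ g := Nat.cast_nonneg _
  linarith

lemma EU_eq (a : ℤ) (ha : Odd a) (R : ℚ⟦X⟧) :
    2 * (X * d⁄dX ℚ (EU a R)) + (a : ℚ⟦X⟧) * EU a R = 2 * R := by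
  ext m
  have h2 : (2 : ℚ⟦X⟧) = PowerSeries.C (2 : ℚ) := (map_ofNat (PowerSeries.C (R := ℚ)) 2).symm
  have h3 : (a : ℚ⟦X⟧) = PowerSeries.C (a : ℚ) := by simp
  have hne : 2 * (m : ℚ) + a ≠ 0 := by
    intro h
    obtain ⟨b, rfl⟩ := ha
    have : (2 * (m : ℤ) + (2 * b + 1) : ℤ) = 0 := by exact_mod_cast h
    omega
  have h4 : coeff m (X * d⁄dX ℚ (EU a R)) = m * coeff m (EU a R) := by
    rcases m with _ | m
    · rw [coeff_zero_X_mul]; simp
    · rw [coeff_succ_X_mul, coeff_derivative]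
      push_cast
      ring
  rw [map_add, h2, h3, coeff_C_mul, coeff_C_mul, coeff_C_mul, h4]
  unfold EU
  rw [coeff_mk]
  field_simp

lemma ps_one_add (g : ℕ) : ps (1 + Polynomial.C (g : ℤ) * Polynomial.X) = 1 + C (g : ℚ) * X := by
  unfold ps
  rw [Polynomial.map_add, Polynomial.map_mul, Polynomial.map_C, Polynomial.map_X, Polynomial.map_one,
    Polynomial.coe_add, Polynomial.coe_mul, Polynomial.coe_C, Polynomial.coe_X, Polynomial.coe_one]
  rfl

lemma Bd_one_add (g : ℕ) : Bd 1 ((g : ℝ) + 2) (1 + Polynomial.C (g : ℤ) * Polynomial.X) := by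
  have h0 : (0 : ℝ) ≤ g := Nat.cast_nonneg _
  refine ⟨?_, fun l => ?_⟩
  · refine (Polynomial.natDegree_add_le _ _).trans (max_le (by simp) ?_)
    exact (Polynomial.natDegree_C_mul_le _ _).trans Polynomial.natDegree_X_le
  · rw [Polynomial.coeff_add, Polynomial.coeff_C_mul, Polynomial.coeff_one, Polynomial.coeff_X]
    rcases l with _ | _ | l
    · simp
      linarith
    · simp
    · simp
      linarith

/-- logarithm -/
lemma log_int (F : Polynomial ℤ) (g : ℕ) : coeff 0 (Yf F g (Sum.inr ())) = 0 ∧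
    d⁄dX ℚ (Yf F g (Sum.inr ())) = (g : ℚ⟦X⟧) * PowerSeries.mk (fun m => (-(g : ℚ)) ^ m) := by
  constructor
  · unfold Yf
    rw [coeff_mk]
    simp
  · ext m
    have h3 : (g : ℚ⟦X⟧) = PowerSeries.C (g : ℚ) := by simp
    rw [coeff_derivative, h3, coeff_C_mul, coeff_mk]
    unfold Yf
    rw [coeff_mk]
    have : ((m : ℚ) + 1) ≠ 0 := by positivity
    push_cast
    field_simp
    ring

lemma geo (g : ℕ) : (1 + C (g : ℚ) * X) * PowerSeries.mk (fun m => (-(g : ℚ)) ^ m) = 1 := by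
  ext m
  rw [add_mul, one_mul, mul_assoc, map_add, coeff_C_mul]
  rcases m with _ | m
  · rw [coeff_zero_X_mul, coeff_mk, coeff_one]; simp
  · rw [coeff_succ_X_mul, coeff_mk, coeff_mk, coeff_one, if_neg (Nat.succ_ne_zero m)]
    ring

/-- the base family -/
theorem base_sys (halg : S_alg) (heint : S_eint) (F : Polynomial ℤ) (hF : Good F) :
    ∃ q E : ℕ, ∀ g : ℕ, GSys q (((g : ℝ) + 2) ^ E) (Tg F g)
      (fun o : Option (Option (Tau F)) => o.elim 1 (zf F g)) := by
  classical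
  set n := F.natDegree with hn
  have hn3 : 3 ≤ n := hF.deg
  have hodd : Odd n := hF.odd
  obtain ⟨E₀, hE₀⟩ := phi_bd F
  obtain ⟨E₁, hE₁⟩ := halg n
  obtain ⟨E₂, hE₂⟩ := heint 2 n n n
  obtain ⟨E₃, hE₃⟩ := t_enl (n + n + 1) 1
  obtain ⟨E₄, hE₄⟩ := int_ext (n + n + 1 + 1) 1
  set A := (E₀ + 2) * E₁ + 2 * n with hA
  set B := (A + 1) * E₂ + 1 with hB
  set D := (B + 1) * E₃ + B + 1 with hD
  refine ⟨n + n + 1 + 1, (D + 1) * E₄, fun g => ?_⟩
  have hx := two_le_g g
  have hx1 := one_le_base g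
  -- `{1, R}`
  have h1 : GSys n (((g : ℝ) + 2) ^ A) (phi F g) (fun b : Bool => if b then Rt (phi F g) else 1) := by
    have h2 := hE₁ ((g + 2) ^ E₀) (phi F g) (by rw [phi_coeff_zero]; exact hF.pos) (phi_natDegree F g)
      (fun l => by
        have := hE₀ g l
        have h3 : ((|(phi F g).coeff l| : ℤ) : ℝ) ≤ (((g + 2) ^ E₀ : ℕ) : ℝ) := by
          push_cast
          exact this
        exact_mod_cast h3)
    refine h2.mono le_rfl ?_
    push_cast
    have h3 : ((g : ℝ) + 2) ^ E₀ + 2 ≤ ((g : ℝ) + 2) ^ (E₀ + 2) := by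
      have h4 : (1 : ℝ) ≤ ((g : ℝ) + 2) ^ E₀ := one_le_pow₀ hx1
      have h5 : (4 : ℝ) ≤ ((g : ℝ) + 2) ^ 2 := by nlinarith
      rw [pow_add]
      nlinarith [mul_le_mul_of_nonneg_left h5 (show (0 : ℝ) ≤ ((g : ℝ) + 2) ^ E₀ by positivity)]
    calc (((g : ℝ) + 2) ^ E₀ + 2) ^ E₁ ≤ (((g : ℝ) + 2) ^ (E₀ + 2)) ^ E₁ :=
          pow_le_pow_left₀ (by positivity) h3 _
      _ = ((g : ℝ) + 2) ^ ((E₀ + 2) * E₁) := by rw [pow_mul]
      _ ≤ _ := base_mono hx1 (by omega)
  -- the integrals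
  have h2 := hE₂ Bool (Fin (n - 1)) (((g : ℝ) + 2) ^ A) (phi F g) _
    (fun j => Yf F g (Sum.inl j)) (by simp) h1 (fun j => by
      refine ⟨(n : ℤ) - 2 - 2 * (j : ℕ), fun b => if b then (1 + Polynomial.C (g : ℤ) * Polynomial.X) ^ (j : ℕ)
        else 0, ?_, ?_, ?_, ?_, ?_⟩
      · obtain ⟨m, hm⟩ := hodd
        refine ⟨(m : ℤ) - 1 - (j : ℕ), ?_⟩
        have hm' : (n : ℤ) = 2 * m + 1 := by exact_mod_cast hm
        linarith
      · have := j.2
        rw [abs_le]
        constructor <;> omega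
      · intro b
        have hj := j.2
        dsimp only
        split_ifs
        · have := ((Bd_one_add g).pow (j : ℕ)).1
          omega
        · simp
      · intro b l
        dsimp only
        split_ifs
        · refine (((Bd_one_add g).pow (j : ℕ)).2 l).trans ?_
          have hj := j.2
          have h5 : ((1 : ℕ) : ℝ) + 1 ≤ (g : ℝ) + 2 := by push_cast; linarith
          calc ((((1 : ℕ) : ℝ) + 1) * ((g : ℝ) + 2)) ^ (j : ℕ) ≤ (((g : ℝ) + 2) * ((g : ℝ) + 2)) ^ (j : ℕ) :=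
                pow_le_pow_left₀ (by positivity) (mul_le_mul_of_nonneg_right h5 (by positivity)) _
            _ = ((g : ℝ) + 2) ^ (2 * (j : ℕ)) := by rw [pow_mul, sq]
            _ ≤ _ := base_mono hx1 (by omega)
        · simp
          positivity
      · have h5 := EU_eq ((n : ℤ) - 2 - 2 * (j : ℕ)) (by
          obtain ⟨m, hm⟩ := hodd
          refine ⟨(m : ℤ) - 1 - (j : ℕ), ?_⟩
          have hm' : (n : ℤ) = 2 * m + 1 := by exact_mod_cast hm
          linarith) ((1 + C (g : ℚ) * X) ^ (j : ℕ) * Rt (phi F g))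
        rw [Fintype.sum_bool]
        simp only [if_true, ps_pow, ps_one_add, Bool.false_eq_true, if_false, ps_zero, zero_mul, add_zero]
        exact h5)
  have h3 : GSys (n + n + 1) (((g : ℝ) + 2) ^ B) (Polynomial.X * phi F g)
      (Sum.elim (fun b : Bool => if b then Rt (phi F g) else 1) fun j : Fin (n - 1) => Yf F g (Sum.inl j)) :=
    h2.mono le_rfl ((pow_base g _ _).trans (base_mono hx1 (by omega)))
  -- the factor `1 + g X`
  have hle : ∀ k, 1 ≤ k → (g : ℝ) + 2 ≤ ((g : ℝ) + 2) ^ k := fun k hk => le_self_pow₀ hx1 (by omega)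
  have h4 := hE₃ _ _ _ (1 + Polynomial.C (g : ℤ) * Polynomial.X) _ h3 (Bd_one_add g).1
    (fun l => ((Bd_one_add g).2 l).trans (hle _ (by omega)))
  have h5 : GSys (n + n + 1 + 1) (((g : ℝ) + 2) ^ D) (Tg F g)
      (Sum.elim (fun b : Bool => if b then Rt (phi F g) else 1) fun j : Fin (n - 1) => Yf F g (Sum.inl j)) :=
    h4.mono le_rfl ((pow_base g _ _).trans (base_mono hx1 (by omega)))
  -- the logarithm
  have h6 := hE₄ _ Unit _ _ _ (fun _ => Yf F g (Sum.inr ())) h5 (fun _ => by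
    obtain ⟨e1, e2⟩ := log_int F g
    refine ⟨e1, fun _ => (g : ℤ), fun _ => PowerSeries.mk (fun m => (-(g : ℚ)) ^ m), fun _ => ?_, fun _ => ?_, ?_⟩
    · push_cast
      rw [abs_of_nonneg (Nat.cast_nonneg _)]
      have := hle D (by omega)
      linarith
    · refine ⟨1, (g : ℤ), Polynomial.X * phi F g, Sum.inl false, Or.inl rfl, ?_, ?_, ?_, ?_⟩
      · push_cast
        rw [abs_of_nonneg (Nat.cast_nonneg _)]
        have := hle D (by omega)
        linarith
      · rw [Polynomial.C_1, mul_comm]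
        rfl
      · intro l
        exact (h3.sizeT l).trans (base_mono hx1 (by omega))
      · rw [Polynomial.C_1, ps_one_add, geo]
        simp
    · rw [e2, Fin.sum_univ_one]
      push_cast
      rfl)
  have h7 := h6.mono le_rfl (pow_base g _ _)
  -- reindexing
  let e : Option (Option (Tau F)) ≃ (Bool ⊕ Fin (n - 1)) ⊕ Unit :=
    { toFun := fun o => match o with
        | none => Sum.inl (Sum.inl false)
        | some none => Sum.inl (Sum.inl true)
        | some (some (Sum.inl j)) => Sum.inl (Sum.inr j)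
        | some (some (Sum.inr ())) => Sum.inr ()
      invFun := fun o => match o with
        | Sum.inl (Sum.inl false) => none
        | Sum.inl (Sum.inl true) => some none
        | Sum.inl (Sum.inr j) => some (some (Sum.inl j))
        | Sum.inr () => some (some (Sum.inr ()))
      left_inv := by
        rintro (_ | _ | (j | ⟨⟩)) <;> rfl
      right_inv := by
        rintro ((_ | _) | ⟨⟩) <;> first | rfl | (rename_i b; cases b <;> rfl) }
  have h8 := h7.reindex e
  have h9 : (fun o : Option (Option (Tau F)) => (o.elim 1 (zf F g) : ℚ⟦X⟧)) = fun j =>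
      Sum.elim (Sum.elim (fun b : Bool => if b then Rt (phi F g) else 1)
        fun j : Fin (n - 1) => Yf F g (Sum.inl j)) (fun _ : Unit => Yf F g (Sum.inr ())) (e j) := by
    funext o
    rcases o with _ | _ | (j | ⟨⟩) <;> rfl
  rw [h9]
  exact h8

end Pool.Agent.Y678.HV
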