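import Pool.Agent.Y678.HV.Base
import Pool.Agent.Y678.HG.HGMon

/-!
# Hyperelliptic integrals at integers: reduced monomials form a G-system
-/

set_option autoImplicit false

open PowerSeries

namespace Pool.Agent.Y678.HV

open Pool.Agent.Y113 Pool.Agent.Y916.Hy

/-- exponents with `e none ≤ 1` -/
def Kx (F : Polynomial ℤ) (Δ : ℕ) : Type :=
  {e : Option (Tau F) → Fin (Δ + 1) // (∑ i, (e i : ℕ)) ≤ Δ ∧ (e none : ℕ) ≤ 1}

instance (F : Polynomial ℤ) (Δ : ℕ) : Fintype (Kx F Δ) := by unfold Kx; infer_instance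
instance (F : Polynomial ℤ) (Δ : ℕ) : DecidableEq (Kx F Δ) := by unfold Kx; infer_instance

/-- the monomials -/
noncomputable def wf (F : Polynomial ℤ) (Δ g : ℕ) (e : Kx F Δ) : ℚ⟦X⟧ := ∏ i, zf F g i ^ (e.1 i : ℕ)

lemma reduce (hrt : S_rt) (F : Polynomial ℤ) (hF : Good F) (Δ : ℕ) (e : Option (Tau F) → ℕ) (he : ∑ i, e i ≤ Δ) :
    ∃ (k : ℕ) (j : Kx F Δ), k ≤ Δ ∧ ∀ g : ℕ, ps (phi F g ^ Δ) * ∏ i, zf F g i ^ e i =
      ps (Polynomial.C ((phi F g).coeff 0 ^ k) * phi F g ^ (Δ - k)) * wf F Δ g j := by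
  have hei : ∀ i, e i ≤ Δ := fun i => (Finset.single_le_sum (f := e) (fun _ _ => Nat.zero_le _)
    (Finset.mem_univ i)).trans he
  set e' : Option (Tau F) → ℕ := fun o => o.elim (e none % 2) fun x => e (some x) with he'
  have hle : ∀ i, e' i ≤ e i := by
    rintro (_ | x)
    · exact Nat.mod_le _ _
    · exact le_rfl
  refine ⟨e none / 2, ⟨fun i => ⟨e' i, by have := hle i; have := hei i; omega⟩, ?_, ?_⟩,
    (Nat.div_le_self _ _).trans (hei none), fun g => ?_⟩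
  · exact (Finset.sum_le_sum fun i _ => hle i).trans he
  · show e none % 2 ≤ 1
    omega
  · have h0 : 0 < (phi F g).coeff 0 := by rw [phi_coeff_zero]; exact hF.pos
    obtain ⟨h1, -⟩ := hrt (phi F g) h0
    unfold wf
    rw [Fintype.prod_option, Fintype.prod_option]
    show ps (phi F g ^ Δ) * (Rt (phi F g) ^ e none * ∏ x, zf F g (some x) ^ e (some x)) =
      ps (Polynomial.C ((phi F g).coeff 0 ^ (e none / 2)) * phi F g ^ (Δ - e none / 2)) *
        (Rt (phi F g) ^ (e none % 2) * ∏ x, zf F g (some x) ^ e (some x))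
    have h2 : ps (phi F g ^ Δ) * Rt (phi F g) ^ e none =
        ps (Polynomial.C ((phi F g).coeff 0 ^ (e none / 2)) * phi F g ^ (Δ - e none / 2)) *
        Rt (phi F g) ^ (e none % 2) := by
      set k := e none / 2 with hk
      have h3 : e none = 2 * k + e none % 2 := (Nat.div_add_mod _ _).symm
      have h4 : Δ = (Δ - k) + k := by have := hei none; omega
      have h5 : ps (phi F g ^ Δ) = ps (phi F g) ^ (Δ - k) * ps (phi F g) ^ k := by
        rw [ps_pow, ← pow_add, ← h4]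
      have h6 : (((phi F g).coeff 0 ^ k : ℤ) : ℚ⟦X⟧) = (Rt (phi F g) ^ 2 * ps (phi F g)) ^ k := by
        rw [h1, ← map_pow]
        simp
      rw [h5, ps_mul, ps_C, ps_pow, h6]
      conv_lhs => rw [h3, pow_add, pow_mul]
      rw [mul_pow]
      ring
    rw [← mul_assoc, h2, mul_assoc]

/-- the reduced monomials -/
theorem one_sys (hrt : S_rt) (halg : S_alg) (heint : S_eint) (F : Polynomial ℤ) (hF : Good F) (Δ : ℕ) :
    ∃ q E : ℕ, ∀ g : ℕ, GSys q (((g : ℝ) + 2) ^ E) (Tg F g * phi F g ^ Δ) (wf F Δ g) := by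
  classical
  obtain ⟨q, E₀, hE₀⟩ := base_sys halg heint F hF
  obtain ⟨E₁, hE₁⟩ := Pool.Agent.Y678.HG.words hE₀ Δ
  obtain ⟨E₂, hE₂⟩ := phi_bd F
  set n := F.natDegree with hn
  obtain ⟨E₃, hE₃⟩ := t_col (max (Fintype.card (Fin Δ → Option (Option (Tau F)))) (Fintype.card (Kx F Δ)))
    q (n * Δ)
  -- words
  choose wd hwd using fun j : Kx F Δ => Pool.Agent.Y678.HG.exists_word Δ (fun i => (j.1 i : ℕ)) j.2.1
  choose ex hex1 hex2 using Pool.Agent.Y678.HG.word_exp (ι := Option (Tau F)) Δ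
  choose kk jj hkk hjj using fun f : Fin Δ → Option (Option (Tau F)) => reduce hrt F hF Δ (ex f) (hex1 f)
  set B := (n + 2 * E₂) * Δ + E₁ with hB
  refine ⟨q + n * Δ, (B + 1) * E₃, fun g => ?_⟩
  have hx := two_le_g g
  have hx1 := one_le_base g
  have hP : ∀ k ≤ Δ, Bd (n * Δ) (((g : ℝ) + 2) ^ B)
      (Polynomial.C ((phi F g).coeff 0 ^ k) * phi F g ^ (Δ - k)) := by
    intro k hk
    have h1 : Bd n (((g : ℝ) + 2) ^ E₂) (phi F g) := ⟨phi_natDegree F g, hE₂ g⟩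
    have h2 := h1.pow (Δ - k)
    have h3 : |(((phi F g).coeff 0 ^ k : ℤ) : ℝ)| ≤ (((g : ℝ) + 2) ^ E₂) ^ k := by
      push_cast
      rw [abs_pow]
      exact pow_le_pow_left₀ (abs_nonneg _) (hE₂ g 0) _
    refine (h2.C_mul h3).mono (Nat.mul_le_mul_left _ (Nat.sub_le _ _)) ?_
    have h4 : ((n : ℝ) + 1) ≤ ((g : ℝ) + 2) ^ n :=
      (succ_le_two_pow n).trans (pow_le_pow_left₀ (by norm_num) hx _)
    calc (((g : ℝ) + 2) ^ E₂) ^ k * (((n : ℝ) + 1) * ((g : ℝ) + 2) ^ E₂) ^ (Δ - k)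
        ≤ (((g : ℝ) + 2) ^ E₂) ^ Δ * (((g : ℝ) + 2) ^ n * ((g : ℝ) + 2) ^ E₂) ^ (Δ - k) := by
          refine mul_le_mul (pow_le_pow_right₀ (one_le_pow₀ hx1) hk) ?_ (by positivity) (by positivity)
          exact pow_le_pow_left₀ (by positivity) (mul_le_mul_of_nonneg_right h4 (by positivity)) _
      _ ≤ (((g : ℝ) + 2) ^ E₂) ^ Δ * (((g : ℝ) + 2) ^ n * ((g : ℝ) + 2) ^ E₂) ^ Δ := by
          refine mul_le_mul_of_nonneg_left ?_ (by positivity)
          refine pow_le_pow_right₀ ?_ (Nat.sub_le _ _)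
          have e1 : (1 : ℝ) ≤ ((g : ℝ) + 2) ^ n := one_le_pow₀ hx1
          have e2 : (1 : ℝ) ≤ ((g : ℝ) + 2) ^ E₂ := one_le_pow₀ hx1
          nlinarith
      _ = ((g : ℝ) + 2) ^ ((n + 2 * E₂) * Δ) := by
          rw [← pow_add, ← pow_mul, ← pow_mul, ← pow_add]
          congr 1
          ring
      _ ≤ _ := base_mono hx1 (by omega)
  have h1 := (hE₁ g).mono le_rfl (base_mono hx1 (show E₁ ≤ B by omega))
  have h2 := hE₃ (Fin Δ → Option (Option (Tau F))) (Kx F Δ) (((g : ℝ) + 2) ^ B) (Tg F g) (phi F g ^ Δ)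
    (fun f => ∏ i, ((f i).elim 1 (zf F g) : ℚ⟦X⟧)) (wf F Δ g) wd
    (fun f j => if j = jj f then Polynomial.C ((phi F g).coeff 0 ^ kk f) * phi F g ^ (Δ - kk f) else 0)
    (le_max_left _ _) (le_max_right _ _) h1 ?_ ?_ ?_ ?_ ?_ ?_
  · exact h2.mono le_rfl (pow_base g _ _)
  · intro j
    exact (hwd j (zf F g)).symm
  · have := (hP 0 (Nat.zero_le _)).1
    simpa using this
  · intro l
    have := (hP 0 (Nat.zero_le _)).2 l
    simpa using this
  · intro f j
    split_ifs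
    · exact (hP _ (hkk f)).1
    · simp
  · intro f j l
    split_ifs
    · exact (hP _ (hkk f)).2 l
    · simp; positivity
  · intro f
    rw [Finset.sum_eq_single (jj f)]
    · rw [if_pos rfl, hex2 f (zf F g)]
      exact hjj f g
    · intro j _ hj
      rw [if_neg hj, ps_zero, zero_mul]
    · intro h
      exact absurd (Finset.mem_univ _) h

end Pool.Agent.Y678.HV
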