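import Pool.Agent.Y678.HV.One
import Pool.Agent.Y535.LG.Val

/-!
# Hyperelliptic integrals at integers: the values theorem `S_hval`
-/

set_option autoImplicit false

open PowerSeries

namespace Pool.Agent.Y678.HV

open Pool.Agent.Y113 Pool.Agent.Y916.Hy

lemma phi_ne {F : Polynomial ℤ} (hF : Good F) {E₂ : ℕ}
    (hE₂ : ∀ g l : ℕ, |(((phi F g).coeff l : ℤ) : ℝ)| ≤ ((g : ℝ) + 2) ^ E₂) {H t g : ℕ} (hg : g ≤ H)
    (ht : (H + 2) ^ (E₂ + F.natDegree + 1) ≤ t) :
    Polynomial.aeval (1 / (t : ℝ)) (phi F g) ≠ 0 := by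
  set n := F.natDegree with hn
  set T := phi F g with hT
  set d := T.natDegree with hd
  have hdn : d ≤ n := phi_natDegree F g
  set A : ℕ := (H + 2) ^ E₂ with hA
  have hA1 : 1 ≤ A := Nat.one_le_pow _ _ (by omega)
  have hcoef : ∀ l, |((T.coeff l : ℤ) : ℝ)| ≤ A := by
    intro l
    refine (hE₂ g l).trans ?_
    rw [hA]
    push_cast
    have : (g : ℝ) ≤ H := by exact_mod_cast hg
    exact pow_le_pow_left₀ (by positivity) (by linarith) _
  have h1 : n * A < t := by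
    have h2 : n < (H + 2) ^ n := (Nat.lt_two_pow_self).trans_le (Nat.pow_le_pow_left (by omega) _)
    calc n * A < (H + 2) ^ n * A := Nat.mul_lt_mul_of_pos_right h2 hA1
      _ = (H + 2) ^ (E₂ + n) := by rw [hA, ← pow_add, Nat.add_comm n E₂]
      _ ≤ (H + 2) ^ (E₂ + n + 1) := Nat.pow_le_pow_right (by omega) (by omega)
      _ ≤ t := ht
  have ht0 : (0 : ℝ) < t := by
    have : 0 < t := by omega
    exact_mod_cast this
  have ht1 : (1 : ℝ) ≤ t := by
    have : 1 ≤ t := by omega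
    exact_mod_cast this
  rw [Polynomial.aeval_eq_sum_range, Finset.sum_range_succ']
  have h2 : |∑ k ∈ Finset.range d, T.coeff (k + 1) • (1 / (t : ℝ)) ^ (k + 1)| ≤ d * (A / t) := by
    refine (Finset.abs_sum_le_sum_abs _ _).trans ?_
    have h3 : ∀ k ∈ Finset.range d, |T.coeff (k + 1) • (1 / (t : ℝ)) ^ (k + 1)| ≤ A / t := by
      intro k _
      rw [zsmul_eq_mul, abs_mul]
      have h4 := hcoef (k + 1)
      have h5 : |(1 / (t : ℝ)) ^ (k + 1)| ≤ 1 / t := by
        rw [abs_of_nonneg (by positivity), pow_succ]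
        have : (1 / (t : ℝ)) ^ k ≤ 1 := pow_le_one₀ (by positivity) (by
          rw [div_le_one ht0]; exact ht1)
        calc (1 / (t : ℝ)) ^ k * (1 / t) ≤ 1 * (1 / t) :=
              mul_le_mul_of_nonneg_right this (by positivity)
          _ = _ := one_mul _
      calc |((T.coeff (k + 1) : ℤ) : ℝ)| * |(1 / (t : ℝ)) ^ (k + 1)| ≤ A * (1 / t) :=
            mul_le_mul h4 h5 (abs_nonneg _) (by positivity)
        _ = A / t := by ring
    refine (Finset.sum_le_sum h3).trans ?_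
    simp
  have h6 : (d : ℝ) * (A / t) < 1 := by
    have h7 : (d : ℝ) ≤ n := by exact_mod_cast hdn
    have h8 : (n : ℝ) * (A / t) < 1 := by
      rw [← mul_div_assoc, div_lt_one ht0]
      exact_mod_cast h1
    have h9 : (0 : ℝ) ≤ A / t := by positivity
    nlinarith
  have h7 := (abs_lt.1 (h2.trans_lt h6)).1
  have h0 : 1 ≤ T.coeff 0 := by rw [hT, phi_coeff_zero]; exact hF.pos
  have h0' : (1 : ℝ) ≤ (T.coeff 0 : ℤ) := by exact_mod_cast h0
  intro h8
  simp only [pow_zero, zsmul_eq_mul, mul_one] at h8 h7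
  linarith

lemma Tg_ne {F : Polynomial ℤ} (hF : Good F) {E₂ : ℕ}
    (hE₂ : ∀ g l : ℕ, |(((phi F g).coeff l : ℤ) : ℝ)| ≤ ((g : ℝ) + 2) ^ E₂) {H t g : ℕ} (hg : g ≤ H)
    (ht : (H + 2) ^ (E₂ + F.natDegree + 1) ≤ t) (Δ : ℕ) :
    Polynomial.aeval (1 / (t : ℝ)) (Tg F g * phi F g ^ Δ) ≠ 0 := by
  have h1 := phi_ne hF hE₂ hg ht
  have ht0 : (0 : ℝ) < t := by
    have : 0 < t := lt_of_lt_of_le (by positivity) ht
    exact_mod_cast this
  unfold Tg
  rw [map_mul, map_mul, map_mul, map_pow, Polynomial.aeval_X]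
  refine mul_ne_zero (mul_ne_zero (mul_ne_zero (by positivity) h1) ?_) (pow_ne_zero _ h1)
  rw [map_add, map_mul, map_one, Polynomial.aeval_X, Polynomial.aeval_C]
  have : (0 : ℝ) ≤ (algebraMap ℤ ℝ) (g : ℤ) * (1 / (t : ℝ)) := by
    simp only [eq_intCast, Int.cast_natCast]
    positivity
  intro h
  linarith

section

variable {F : Polynomial ℤ} {Δ N : ℕ}

/-- the set of the shifts with a root -/
def AA (b : Fin N → Kx F Δ) : Finset (Fin N) := Finset.univ.filter fun l => ((b l).1 none : ℕ) = 1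

/-- the exponents -/
noncomputable def DD (b : Fin N → Kx F Δ) : (Fin N × Tau F) →₀ ℕ :=
  Finsupp.equivFunOnFinite.symm fun x => ((b x.1).1 (some x.2) : ℕ)

lemma DD_apply (b : Fin N → Kx F Δ) (x : Fin N × Tau F) : DD b x = ((b x.1).1 (some x.2) : ℕ) := rfl

lemma inj_AD : Function.Injective (fun b : Fin N → Kx F Δ => (AA b, DD b)) := by
  intro b b' h
  have h1 : AA b = AA b' := congrArg Prod.fst h
  have h2 : DD b = DD b' := congrArg Prod.snd h
  funext l
  apply Subtype.ext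
  funext i
  apply Fin.ext
  rcases i with _ | x
  · have h3 : l ∈ AA b ↔ l ∈ AA b' := by rw [h1]
    unfold AA at h3
    simp only [Finset.mem_filter, Finset.mem_univ, true_and] at h3
    have h4 := (b l).2.2
    have h5 := (b' l).2.2
    omega
  · have := DFunLike.congr_fun h2 (l, x)
    rwa [DD_apply, DD_apply] at this

lemma prod_wf (g : Fin N → ℕ) (b : Fin N → Kx F Δ) :
    ∏ l, wf F Δ (g l) (b l) = (∏ l ∈ AA b, Rt (phi F (g l))) * (DD b).prod fun x e => Yf F (g x.1) x.2 ^ e := by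
  rw [Finsupp.prod_fintype _ _ (fun _ => pow_zero _), Fintype.prod_prod_type, AA, Finset.prod_filter,
    ← Finset.prod_mul_distrib]
  refine Finset.prod_congr rfl fun l _ => ?_
  unfold wf
  rw [Fintype.prod_option]
  congr 1
  have h4 := (b l).2.2
  show Rt (phi F (g l)) ^ ((b l).1 none : ℕ) = _
  split_ifs with h
  · rw [h, pow_one]
  · have : ((b l).1 none : ℕ) = 0 := by omega
    rw [this, pow_zero]

lemma exists_b (d : (Fin N × Tau F) →₀ ℕ) (hd : (d.sum fun _ k => k) ≤ Δ) :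
    ∃ b : Fin N → Kx F Δ, AA b = ∅ ∧ DD b = d := by
  have h2 : ∑ i, d i ≤ Δ := by
    rwa [Finsupp.sum_fintype _ _ (fun _ => rfl)] at hd
  have hi : ∀ i, d i < Δ + 1 := fun i => by
    have := Finset.single_le_sum (f := fun i => d i) (fun _ _ => Nat.zero_le _) (Finset.mem_univ i)
    omega
  have h3 : ∀ l, ∑ x, d (l, x) ≤ Δ := by
    intro l
    rw [Fintype.sum_prod_type] at h2
    exact (Finset.single_le_sum (f := fun l => ∑ x, d (l, x)) (fun _ _ => Nat.zero_le _)
      (Finset.mem_univ l)).trans h2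
  refine ⟨fun l => ⟨fun o => o.elim ⟨0, by omega⟩ fun x => ⟨d (l, x), hi _⟩, ?_, ?_⟩, ?_, ?_⟩
  · rw [Fintype.sum_option]
    simpa using h3 l
  · show 0 ≤ 1
    omega
  · unfold AA
    rw [Finset.filter_eq_empty_iff]
    intro l _
    show ¬ (0 = 1)
    omega
  · ext x
    rfl

end

theorem hval_of (hrt : S_rt) (halg : S_alg) (heint : S_eint) (_hcol : S_col) (hli : S_hli) : S_hval := by
  classical
  intro F hF N Δ
  obtain ⟨q₀, E₀, hE₀⟩ := one_sys hrt halg heint F hF Δ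
  obtain ⟨q, E₁, hE₁⟩ := Pool.Agent.Y120.GF.gsys_multi (fun g => wf F Δ g) (fun g => Tg F g * phi F g ^ Δ) q₀ E₀ hE₀ N
  obtain ⟨E₂, hE₂⟩ := phi_bd F
  obtain ⟨E₃, hE₃⟩ := G_of Pool.Agent.Y141.GF.t_shid Pool.Agent.Y141.GF.t_loc
    (Fintype.card (Fin N → Kx F Δ)) q
  obtain ⟨q₄, E₄, hE₄⟩ := base_sys halg heint F hF
  refine ⟨(E₁ + 1) * E₃ + (E₂ + F.natDegree + 1) + (E₄ + 1), fun H t ht g hg hgH P hP hPv => ?_⟩
  have hB : (1 : ℝ) ≤ (H : ℝ) + 2 := one_le_base H
  have htN : ∀ a, a ≤ (E₁ + 1) * E₃ + (E₂ + F.natDegree + 1) + (E₄ + 1) → (H + 2) ^ a ≤ t := fun a ha =>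
    (Nat.pow_le_pow_right (by omega) ha).trans ht
  have htR : ∀ a, a ≤ (E₁ + 1) * E₃ + (E₂ + F.natDegree + 1) + (E₄ + 1) →
      ((H : ℝ) + 2) ^ a ≤ t := fun a ha => by exact_mod_cast htN a ha
  have ht1 : (1 : ℝ) ≤ t := by simpa using htR 0 (by omega)
  have ht0 : (0 : ℝ) < t := by linarith
  have hG := hE₁ H g (fun l => (hgH l).2)
  obtain ⟨b₀, hb₀, hb₀'⟩ := exists_b (F := F) (Δ := Δ) (N := N) 0 (by simp)
  have hev := hE₃ (Fin N → Kx F Δ) _ _ _ b₀ t le_rfl hG (by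
      rw [prod_wf g b₀, hb₀, hb₀']
      simp) (by
      have h1 := (hli F hF N g hg fun l => (hgH l).1).comp (fun b : Fin N → Kx F Δ => (AA b, DD b)) inj_AD
      have h2 : (fun b : Fin N → Kx F Δ => ∏ l, wf F Δ (g l) (b l)) =
          (fun p : Finset (Fin N) × (Fin N × (Fin (F.natDegree - 1) ⊕ Unit) →₀ ℕ) =>
      (∏ l ∈ p.1, Rt (phi F (g l))) * p.2.prod fun x e => Yf F (g x.1) x.2 ^ e) ∘
          (fun b : Fin N → Kx F Δ => (AA b, DD b)) := by
        funext b
        exact prod_wf g b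
      rw [h2]
      exact h1)
    ((pow_base H _ _).trans (htR _ (by omega)))
    (by
      rw [map_prod]
      exact Finset.prod_ne_zero_iff.2 fun l _ => Tg_ne hF hE₂ (hgH l).2 (htN _ (by omega)) Δ)
  -- evaluation
  have hcv : ∀ x : Fin N × Tau F, Cv (t : ℝ) (Yf F (g x.1) x.2) := by
    intro x
    have hgH' : ((g x.1 : ℕ) : ℝ) + 2 ≤ (H : ℝ) + 2 := by
      have : ((g x.1 : ℕ) : ℝ) ≤ H := by exact_mod_cast (hgH x.1).2
      linarith
    refine Cv.of_bound ht0 (A := ((H : ℝ) + 2) ^ E₄) (B := ((H : ℝ) + 2) ^ E₄) (by positivity) ?_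
      fun m => ?_
    · refine lt_of_lt_of_le ?_ (htR (E₄ + 1) (by omega))
      exact pow_lt_pow_right₀ (by linarith [show (0 : ℝ) ≤ H by positivity]) (by omega)
    · have h1 := (hE₄ (g x.1)).size (some (some x.2)) m
      have h2 : ((((g x.1 : ℕ) : ℝ) + 2) ^ E₄) ^ (m + 1) ≤ (((H : ℝ) + 2) ^ E₄) ^ (m + 1) :=
        pow_le_pow_left₀ (by positivity) (pow_le_pow_left₀ (by positivity) hgH' _) _
      have h3 := h1.trans h2
      rw [pow_succ'] at h3
      exact h3
  have hmo : ∀ b : Fin N → Kx F Δ, AA b = ∅ → ev t (∏ l, wf F Δ (g l) (b l)) =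
      ∏ x, (ev t (Yf F (g x.1) x.2)) ^ (DD b x) := by
    intro b hb
    rw [prod_wf g b, hb, Finset.prod_empty, one_mul, Finsupp.prod_fintype _ _ (fun _ => pow_zero _),
      Cv.ev_prod ht0 _ _ fun x _ => (hcv x).pow ht0 _]
    exact Finset.prod_congr rfl fun x _ => (hcv x).ev_pow ht0 _
  set c : (Fin N → Kx F Δ) → ℚ := fun b => if AA b = ∅ then P.coeff (DD b) else 0 with hc
  have hsum : ∑ b, c b • ev t (∏ l, wf F Δ (g l) (b l)) = 0 := by
    rw [← hPv, MvPolynomial.aeval_def, MvPolynomial.eval₂_eq']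
    have h1 : ∑ b, c b • ev t (∏ l, wf F Δ (g l) (b l)) =
        ∑ b ∈ Finset.univ.filter (fun b : Fin N → Kx F Δ => AA b = ∅),
          (algebraMap ℚ ℝ) (P.coeff (DD b)) * ∏ x, ev t (Yf F (g x.1) x.2) ^ (DD b x) := by
      rw [Finset.sum_filter]
      refine Finset.sum_congr rfl fun b _ => ?_
      rw [hc]
      dsimp only
      split_ifs with h
      · rw [hmo b h, Algebra.smul_def]
      · rw [zero_smul]
    have hinj : Set.InjOn (fun b : Fin N → Kx F Δ => DD b)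
        (Finset.univ.filter (fun b : Fin N → Kx F Δ => AA b = ∅)) := by
      intro b hb b' hb' h
      have h2 : AA b = ∅ := by simpa using hb
      have h3 : AA b' = ∅ := by simpa using hb'
      exact inj_AD (by
        show (AA b, DD b) = (AA b', DD b')
        rw [h2, h3]
        exact Prod.ext rfl h)
    have h2 := Finset.sum_image (f := fun d => (algebraMap ℚ ℝ) (P.coeff d) *
      ∏ x, ev t (Yf F (g x.1) x.2) ^ (d x)) hinj
    rw [h1, ← h2]
    symm
    refine Finset.sum_subset ?_ ?_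
    · intro d hd
      have h3 : (d.sum fun _ k => k) ≤ Δ := (MvPolynomial.le_totalDegree hd).trans hP
      obtain ⟨b, hb, hb'⟩ := exists_b d h3
      exact Finset.mem_image.2 ⟨b, by simpa using hb, hb'⟩
    · intro d _ hd
      rw [MvPolynomial.notMem_support_iff.1 hd]
      simp
  have h3 := Fintype.linearIndependent_iff.1 hev c hsum
  ext d
  rw [MvPolynomial.coeff_zero]
  by_contra hne
  have h4 : (d.sum fun _ k => k) ≤ Δ :=
    (MvPolynomial.le_totalDegree (MvPolynomial.mem_support_iff.2 hne)).trans hP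
  obtain ⟨b, hb, hb'⟩ := exists_b d h4
  have h5 := h3 b
  rw [hc] at h5
  dsimp only at h5
  rw [if_pos hb, hb'] at h5
  exact hne h5

end Pool.Agent.Y678.HV
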